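import Pool.Agent.Helper69.HN.Loc

/-!
# One step of the dynamics near a flop curve (piece D2)
-/

set_option autoImplicit false

namespace Pool.Agent.Helper69.HN

open Pool.Agent.Helper24.HN

variable {p : ℕ} [hp : Fact p.Prime] {n : ℕ}

section local_step

variable (L : Loc p n) {r : ℝ} {u0 : V p n} {zb : ℤ_[p]} {x : ℤ_[p] → V p n} {a : ℝ}

/-- The parameter of the reflection. -/
noncomputable def tt (x : ℤ_[p] → V p n) (z : ℤ_[p]) : ℤ_[p] := L.psi (x z) z * (L.kap (x z) z).inv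

/-- The reflected point. -/
noncomputable def xx (x : ℤ_[p] → V p n) (z : ℤ_[p]) : V p n := x z - tt L x z • L.xi (x z) z

theorem kap_one (hr1 : r < 1) (hkap : ‖L.kap u0 zb‖ = 1)
    (hball : ∀ z, ‖z - zb‖ ≤ r → ‖x z - u0‖ ≤ r) {z : ℤ_[p]} (hz : ‖z - zb‖ ≤ r) : ‖L.kap (x z) z‖ = 1 := by
  rw [← hkap]
  refine norm_eq_of_sub_le (e := r) ((L.hkap _ _ _ _).trans (max_le (hball z hz) hz)) ?_
  rwa [hkap]

theorem tt_mul (hr1 : r < 1) (hkap : ‖L.kap u0 zb‖ = 1)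
    (hball : ∀ z, ‖z - zb‖ ≤ r → ‖x z - u0‖ ≤ r) {z : ℤ_[p]} (hz : ‖z - zb‖ ≤ r) :
    tt L x z * L.kap (x z) z = L.psi (x z) z := by
  unfold tt
  rw [mul_assoc, PadicInt.inv_mul (kap_one L hr1 hkap hball hz), mul_one]

theorem psi_le (hpsi : L.psi u0 zb = 0) {X : V p n} (hX : ‖X - u0‖ ≤ r) {z : ℤ_[p]} (hz : ‖z - zb‖ ≤ r) :
    ‖L.psi X z‖ ≤ r := by
  have h1 : L.psi X z = (L.psi X z - L.psi u0 z) + (z - zb) * L.sl u0 z zb := by
    rw [← L.hsl, hpsi]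
    ring
  rw [h1]
  exact add_le ((L.hpsi _ _ _).trans hX) (norm_mul_le_left hz)

theorem tt_le (hr1 : r < 1) (hkap : ‖L.kap u0 zb‖ = 1) (hpsi : L.psi u0 zb = 0)
    (hball : ∀ z, ‖z - zb‖ ≤ r → ‖x z - u0‖ ≤ r) {z : ℤ_[p]} (hz : ‖z - zb‖ ≤ r) : ‖tt L x z‖ ≤ r := by
  have h1 := congrArg norm (tt_mul L hr1 hkap hball hz)
  rw [norm_mul, kap_one L hr1 hkap hball hz, mul_one] at h1
  rw [h1]
  exact psi_le L hpsi (hball z hz) hz

theorem xx_near (hr0 : 0 ≤ r) (hr1 : r < 1) (hkap : ‖L.kap u0 zb‖ = 1) (hpsi : L.psi u0 zb = 0)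
    (hball : ∀ z, ‖z - zb‖ ≤ r → ‖x z - u0‖ ≤ r) {z : ℤ_[p]} (hz : ‖z - zb‖ ≤ r) : ‖xx L x z - u0‖ ≤ r := by
  have h1 : xx L x z - u0 = (x z - u0) - tt L x z • L.xi (x z) z := by
    unfold xx
    abel
  rw [h1]
  exact vsub_le hr0 (hball z hz) ((vsmul_le' _ _).trans (tt_le L hr1 hkap hpsi hball hz))

theorem tt_sub (hr1 : r < 1) (hkap : ‖L.kap u0 zb‖ = 1) (hpsi : L.psi u0 zb = 0)
    (hball : ∀ z, ‖z - zb‖ ≤ r → ‖x z - u0‖ ≤ r) (har : a ≤ r)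
    (hlip : ∀ z w, ‖z - zb‖ ≤ r → ‖w - zb‖ ≤ r → ‖x z - x w‖ ≤ a * ‖z - w‖)
    {c0 : ℤ_[p]} (hc0 : c0 * L.kap u0 zb = L.sl u0 zb zb)
    {z w : ℤ_[p]} (hz : ‖z - zb‖ ≤ r) (hw : ‖w - zb‖ ≤ r) :
    ‖tt L x z - tt L x w - c0 * (z - w)‖ ≤ r * ‖z - w‖ := by
  have hzw : 0 ≤ ‖z - w‖ := norm_nonneg _
  have hxl : ‖x z - x w‖ ≤ r * ‖z - w‖ := (hlip z w hz hw).trans (mul_le_mul_of_nonneg_right har hzw)
  have hxl1 : ‖x z - x w‖ ≤ ‖z - w‖ := hxl.trans (mul_le_of_le_one_left hzw hr1.le)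
  have k1 := kap_one L hr1 hkap hball hz
  have h1 := tt_mul L hr1 hkap hball hz
  have h2 := tt_mul L hr1 hkap hball hw
  have key : (tt L x z - tt L x w - c0 * (z - w)) * L.kap (x z) z =
      (z - w) * (L.sl (x z) z w - L.sl u0 zb zb) + (L.psi (x z) w - L.psi (x w) w) -
      tt L x w * (L.kap (x z) z - L.kap (x w) w) - (z - w) * (c0 * (L.kap (x z) z - L.kap u0 zb)) := by
    have h3 := L.hsl (x z) z w
    linear_combination h1 - h2 + h3 - (z - w) * hc0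
  have h4 : ‖tt L x z - tt L x w - c0 * (z - w)‖ =
      ‖(tt L x z - tt L x w - c0 * (z - w)) * L.kap (x z) z‖ := by
    rw [norm_mul, k1, mul_one]
  rw [h4, key]
  refine sub_le (sub_le (add_le ?_ ?_) ?_) ?_
  · rw [norm_mul, mul_comm]
    refine mul_le_mul_of_nonneg_right ((L.hsl' _ _ _ _ _ _).trans ?_) hzw
    exact max_le (hball z hz) (max_le hz hw)
  · exact (L.hpsi _ _ _).trans hxl
  · rw [norm_mul]
    refine mul_le_mul (tt_le L hr1 hkap hpsi hball hw) ((L.hkap _ _ _ _).trans (max_le hxl1 le_rfl)) (norm_nonneg _) ?_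
    exact (norm_nonneg _).trans hz
  · rw [norm_mul, mul_comm]
    refine mul_le_mul_of_nonneg_right (norm_mul_le_right ((L.hkap _ _ _ _).trans ?_)) hzw
    exact max_le (hball z hz) hz

theorem xx_sub (hr1 : r < 1) (hkap : ‖L.kap u0 zb‖ = 1) (hpsi : L.psi u0 zb = 0)
    (hball : ∀ z, ‖z - zb‖ ≤ r → ‖x z - u0‖ ≤ r) (har : a ≤ r)
    (hlip : ∀ z w, ‖z - zb‖ ≤ r → ‖w - zb‖ ≤ r → ‖x z - x w‖ ≤ a * ‖z - w‖)
    {c0 : ℤ_[p]} (hc0 : c0 * L.kap u0 zb = L.sl u0 zb zb)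
    {z w : ℤ_[p]} (hz : ‖z - zb‖ ≤ r) (hw : ‖w - zb‖ ≤ r) :
    ‖xx L x z - xx L x w‖ ≤ ‖z - w‖ := by
  have hzw : 0 ≤ ‖z - w‖ := norm_nonneg _
  have hxl1 : ‖x z - x w‖ ≤ ‖z - w‖ :=
    ((hlip z w hz hw).trans (mul_le_mul_of_nonneg_right har hzw)).trans (mul_le_of_le_one_left hzw hr1.le)
  have h1 : xx L x z - xx L x w = ((x z - x w) - (tt L x z - tt L x w) • L.xi (x z) z) -
      tt L x w • (L.xi (x z) z - L.xi (x w) w) := by
    unfold xx
    rw [sub_smul, smul_sub]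
    abel
  rw [h1]
  refine vsub_le hzw (vsub_le hzw hxl1 ((vsmul_le' _ _).trans ?_)) ?_
  · have h2 := tt_sub L hr1 hkap hpsi hball har hlip hc0 hz hw
    have h3 : tt L x z - tt L x w = (tt L x z - tt L x w - c0 * (z - w)) + c0 * (z - w) := by ring
    rw [h3]
    exact add_le (h2.trans (mul_le_of_le_one_left hzw hr1.le)) (norm_mul_le_right le_rfl)
  · refine (vsmul_le _ _).trans ?_
    refine (mul_le_of_le_one_left (norm_nonneg _) (PadicInt.norm_le_one _)).trans ?_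
    exact (L.hxi _ _ _ _).trans (max_le hxl1 le_rfl)

/-- The function whose zero gives the point over the new place. -/
theorem H_sub (hr1 : r < 1) (hkap : ‖L.kap u0 zb‖ = 1) (hpsi : L.psi u0 zb = 0)
    (hball : ∀ z, ‖z - zb‖ ≤ r → ‖x z - u0‖ ≤ r) (har : a ≤ r)
    (hlip : ∀ z w, ‖z - zb‖ ≤ r → ‖w - zb‖ ≤ r → ‖x z - x w‖ ≤ a * ‖z - w‖)
    {c0 : ℤ_[p]} (hc0 : c0 * L.kap u0 zb = L.sl u0 zb zb) {zc v : ℤ_[p]} (hv : ‖v - zc‖ ≤ r)
    {z w : ℤ_[p]} (hz : ‖z - zb‖ ≤ r) (hw : ‖w - zb‖ ≤ r) :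
    ‖L.F (xx L x z) v - L.F (xx L x w) v - (-(c0 * L.dF u0 (L.xi u0 zb) zc)) * (z - w)‖ ≤ r * ‖z - w‖ := by
  have hzw : 0 ≤ ‖z - w‖ := norm_nonneg _
  have hr0 : 0 ≤ r := (norm_nonneg _).trans hz
  have hzwr : ‖z - w‖ ≤ r := by
    have h1 : z - w = (z - zb) - (w - zb) := by ring
    rw [h1]
    exact sub_le hz hw
  have hxl : ‖x z - x w‖ ≤ r * ‖z - w‖ := (hlip z w hz hw).trans (mul_le_mul_of_nonneg_right har hzw)
  have hxl1 : ‖x z - x w‖ ≤ ‖z - w‖ := hxl.trans (mul_le_of_le_one_left hzw hr1.le)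
  have h1 := hF L (xx L x w) (xx L x z - xx L x w) v
  rw [add_sub_cancel] at h1
  have h2 := xx_sub L hr1 hkap hpsi hball har hlip hc0 hz hw
  have h3 : L.dF (xx L x w) (xx L x z - xx L x w) v = L.dF (xx L x w) (x z - x w) v -
      (tt L x z - tt L x w) * L.dF (xx L x w) (L.xi (x z) z) v -
      tt L x w * L.dF (xx L x w) (L.xi (x z) z - L.xi (x w) w) v := by
    have h4 : xx L x z - xx L x w = ((x z - x w) - (tt L x z - tt L x w) • L.xi (x z) z) -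
        tt L x w • (L.xi (x z) z - L.xi (x w) w) := by
      unfold xx
      rw [sub_smul, smul_sub]
      abel
    rw [h4, dF_sub, dF_sub, dF_smul, dF_smul]
  have h5 : ‖L.dF (xx L x w) (L.xi (x z) z) v - L.dF u0 (L.xi u0 zb) zc‖ ≤ r :=
    (Th_lip L _ _ _ _ _ _ _ _).trans (max_le (max_le (xx_near L hr0 hr1 hkap hpsi hball hw)
      (max_le (hball z hz) hz)) hv)
  have h6 : L.F (xx L x z) v - L.F (xx L x w) v - (-(c0 * L.dF u0 (L.xi u0 zb) zc)) * (z - w) =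
      (L.F (xx L x z) v - L.F (xx L x w) v - L.dF (xx L x w) (xx L x z - xx L x w) v) +
      L.dF (xx L x w) (x z - x w) v -
      (tt L x z - tt L x w - c0 * (z - w)) * L.dF (xx L x w) (L.xi (x z) z) v -
      (c0 * (z - w)) * (L.dF (xx L x w) (L.xi (x z) z) v - L.dF u0 (L.xi u0 zb) zc) -
      tt L x w * L.dF (xx L x w) (L.xi (x z) z - L.xi (x w) w) v := by
    rw [h3]
    ring
  rw [h6]
  refine sub_le (sub_le (sub_le (add_le ?_ ?_) ?_) ?_) ?_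
  · refine h1.trans ?_
    rw [sq]
    exact mul_le_mul (h2.trans hzwr) h2 (norm_nonneg _) hr0
  · exact (dF_le L _ _ _).trans hxl
  · exact norm_mul_le_left (tt_sub L hr1 hkap hpsi hball har hlip hc0 hz hw)
  · rw [norm_mul, mul_comm]
    exact mul_le_mul h5 (norm_mul_le_right le_rfl) (norm_nonneg _) hr0
  · rw [norm_mul]
    exact mul_le_mul (tt_le L hr1 hkap hpsi hball hw)
      ((dF_le L _ _ _).trans ((L.hxi _ _ _ _).trans (max_le hxl1 le_rfl))) (norm_nonneg _) hr0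

/-- The relations between a graph and its image. -/
theorem rel (hr1 : r < 1) (hkap : ‖L.kap u0 zb‖ = 1) (hpsi : L.psi u0 zb = 0)
    (hball : ∀ z, ‖z - zb‖ ≤ r → ‖x z - u0‖ ≤ r) {z : ℤ_[p]} (hz : ‖z - zb‖ ≤ r) (v : ℤ_[p]) :
    ‖L.F (xx L x z) v - L.F (x z) v + tt L x z * L.dF (x z) (L.xi (x z) z) v‖ ≤ ‖tt L x z‖ * r := by
  have h1 := hF L (x z) (-(tt L x z • L.xi (x z) z)) v
  rw [dF_neg, dF_smul, ← sub_eq_add_neg, norm_neg] at h1
  have h2 : L.F (xx L x z) v - L.F (x z) v + tt L x z * L.dF (x z) (L.xi (x z) z) v =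
      L.F (x z - tt L x z • L.xi (x z) z) v - L.F (x z) v - -(tt L x z * L.dF (x z) (L.xi (x z) z) v) := by
    unfold xx
    ring
  rw [h2]
  refine h1.trans ?_
  rw [sq]
  exact mul_le_mul (vsmul_le' _ _) ((vsmul_le' _ _).trans (tt_le L hr1 hkap hpsi hball hz)) (norm_nonneg _)
    (norm_nonneg _)

theorem A_rel (z : ℤ_[p]) : ‖L.A (xx L x z) - L.A (x z)‖ ≤ ‖tt L x z‖ := by
  refine (A_lip L _ _).trans ?_
  have h1 : xx L x z - x z = -(tt L x z • L.xi (x z) z) := by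
    unfold xx
    abel
  rw [h1, norm_neg]
  exact vsmul_le' _ _

/-- The parameter and the new leading coefficient. -/
theorem lead_new (hr1 : r < 1) (hkap : ‖L.kap u0 zb‖ = 1) (hpsi : L.psi u0 zb = 0)
    (hball : ∀ z, ‖z - zb‖ ≤ r → ‖x z - u0‖ ≤ r) (ha0 : 0 < a) {zi zc : ℤ_[p]} {θ : ℝ}
    (hTc : ‖L.dF u0 (L.xi u0 zb) zc‖ = 1) (hTi : ‖L.dF u0 (L.xi u0 zb) zi‖ = θ) (hθ : r < θ)
    (hib : ‖zi - zb‖ = 1) (hcb : ‖zc - zb‖ = 1) (hic : zi = zc ∧ θ = 1 ∨ ‖zc - zi‖ = 1)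
    {z v s : ℤ_[p]} (hz : ‖z - zb‖ ≤ r) (hv : ‖v - zc‖ ≤ r) (hs : ‖s - zi‖ ≤ r) (hlead : ‖L.A (x z)‖ = a)
    (hfac : ∀ w, L.F (x z) w = L.A (x z) * (w - z) * (w - s)) (h0 : L.F (xx L x z) v = 0)
    (h0' : L.F (xx L x z) z = 0) :
    ‖tt L x z‖ ≤ a ∧ ‖L.A (xx L x z)‖ = a * θ := by
  have hone : ∀ {b c : ℤ_[p]} {e : ℤ_[p]} {f : ℤ_[p]}, ‖b - e‖ ≤ r → ‖c - f‖ ≤ r → ‖e - f‖ = 1 → ‖b - c‖ = 1 := by
    intro b c e f h1 h2 h3
    rw [← h3]
    refine norm_eq_of_sub_le (e := r) ?_ (by rw [h3]; exact hr1)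
    have h4 : b - c - (e - f) = (b - e) - (c - f) := by ring
    rw [h4]
    exact sub_le h1 h2
  have hTv : ‖L.dF (x z) (L.xi (x z) z) v‖ = 1 := by
    rw [← hTc]
    refine norm_eq_of_sub_le (e := r) ((Th_lip L _ _ _ _ _ _ _ _).trans
      (max_le (max_le (hball z hz) (max_le (hball z hz) hz)) hv)) (by rw [hTc]; exact hr1)
  have hTs : ‖L.dF (x z) (L.xi (x z) z) s‖ = θ := by
    rw [← hTi]
    refine norm_eq_of_sub_le (e := r) ((Th_lip L _ _ _ _ _ _ _ _).trans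
      (max_le (max_le (hball z hz) (max_le (hball z hz) hz)) hs)) (by rw [hTi]; exact hθ)
  have hθ1 : θ ≤ 1 := by
    rw [← hTs]
    exact PadicInt.norm_le_one _
  have hvz : ‖v - z‖ = 1 := hone hv hz hcb
  have hsz : ‖s - z‖ = 1 := hone hs hz hib
  -- the parameter
  have ht : ‖tt L x z‖ = a * ‖v - s‖ := by
    have h1 := rel L hr1 hkap hpsi hball hz v
    rw [h0, zero_sub, hfac v] at h1
    have h2 : ‖tt L x z * L.dF (x z) (L.xi (x z) z) v‖ = ‖tt L x z‖ := by rw [norm_mul, hTv, mul_one]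
    have h3 : ‖L.A (x z) * (v - z) * (v - s)‖ = a * ‖v - s‖ := by
      rw [norm_mul, norm_mul, hlead, hvz, mul_one]
    rcases eq_or_ne (tt L x z) 0 with h4 | h4
    · rw [h4, zero_mul, add_zero, norm_neg, norm_zero, zero_mul, h3] at h1
      rw [h4, norm_zero]
      exact le_antisymm (mul_nonneg ha0.le (norm_nonneg _)) h1
    · have h5 : 0 < ‖tt L x z‖ := norm_pos_iff.2 h4
      rw [← h3, ← h2]
      symm
      refine norm_eq_of_sub_le (e := ‖tt L x z‖ * r) ?_ ?_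
      · rw [← norm_neg]
        have h6 : -(L.A (x z) * (v - z) * (v - s) - tt L x z * L.dF (x z) (L.xi (x z) z) v) =
            -(L.A (x z) * (v - z) * (v - s)) + tt L x z * L.dF (x z) (L.xi (x z) z) v := by ring
        rw [h6]
        exact h1
      · rw [h2]
        exact mul_lt_of_lt_one_right h5 hr1
  have hta : ‖tt L x z‖ ≤ a := by
    rw [ht]
    exact mul_le_of_le_one_right ha0.le (PadicInt.norm_le_one _)
  refine ⟨hta, ?_⟩
  rcases hic with ⟨h1, h2⟩ | h1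
  · have h3 : ‖v - s‖ ≤ r := by
      have h4 : v - s = (v - zc) - (s - zi) := by rw [h1]; ring
      rw [h4]
      exact sub_le hv hs
    have h4 : ‖tt L x z‖ < a := by
      rw [ht]
      exact (mul_le_mul_of_nonneg_left h3 ha0.le).trans_lt (mul_lt_of_lt_one_right ha0 hr1)
    rw [h2, mul_one, ← hlead]
    exact norm_eq_of_sub_le (A_rel L z) (by rw [hlead]; exact h4)
  · have hvs : ‖v - s‖ = 1 := hone hv hs h1
    rw [hvs, mul_one] at ht
    have h2 := rel L hr1 hkap hpsi hball hz s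
    have h3 : L.F (x z) s = 0 := by rw [hfac s, sub_self, mul_zero]
    have hne : v ≠ z := by
      intro h4
      rw [h4, sub_self, norm_zero] at hvz
      exact zero_ne_one hvz
    rw [h3, sub_zero, F_factor L h0 h0' hne s, ht] at h2
    have h4 : ‖-(tt L x z * L.dF (x z) (L.xi (x z) z) s)‖ = a * θ := by rw [norm_neg, norm_mul, ht, hTs]
    have h5 : ‖L.A (xx L x z) * (s - v) * (s - z)‖ = ‖L.A (xx L x z)‖ := by
      rw [norm_mul, norm_mul, hsz, norm_sub_rev s v, hvs, mul_one, mul_one]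
    rw [← h5, ← h4]
    refine norm_eq_of_sub_le (e := a * r) ?_ ?_
    · rw [sub_neg_eq_add]
      exact h2
    · rw [h4]
      exact mul_lt_mul_of_pos_left hθ ha0

end local_step

/-- D2: one step. -/
theorem step {L : Loc p n} {J : Type} [DecidableEq J] {R : Ref L J} (M : Mems L R) {i b c : J} {k N : ℕ}
    {x : ℤ_[p] → V p n} (h : St M i b k N x) (hib : Ok R b c) (hi : i ≠ b) :
    ∃ x', St M b c (k + ex R i b) (N + 1) x' ∧ Link R k b c x x' := by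
  obtain ⟨hbc, hby, hcy, hmj⟩ := hib
  have hp1 : (1 : ℝ) < p := by exact_mod_cast hp.out.one_lt
  have hp0 : (0 : ℝ) < p := zero_lt_one.trans hp1
  obtain ⟨r, hr⟩ : ∃ r : ℝ, r = (p : ℝ) ^ (-2 : ℤ) := ⟨_, rfl⟩
  obtain ⟨a, ha⟩ : ∃ a : ℝ, a = (p : ℝ) ^ (-k : ℤ) := ⟨_, rfl⟩
  have hr0 : 0 < r := by rw [hr]; positivity
  have hr1 : r < 1 := by
    rw [hr]
    exact zpow_lt_one_of_neg₀ hp1 (by norm_num)
  have ha0 : 0 < a := by rw [ha]; positivity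
  have har : a ≤ r := by
    rw [ha, hr]
    exact zpow_le_zpow_right₀ hp1.le (by have := h.hk; omega)
  have hpm1 : r < (p : ℝ) ^ (-1 : ℤ) := by
    rw [hr]
    exact zpow_lt_zpow_right₀ hp1 (by norm_num)
  have hball := h.ball
  have hmem := h.mem
  have hlead := h.lead
  have hlip := h.lip
  have hrt := h.rt
  rw [← hr] at hball hmem hlead hlip hrt
  rw [← ha] at hlead hlip
  have hkap := R.hkap b hby
  have hpsi := R.hpsi b hby
  have hsl := R.hsl b hby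
  obtain ⟨c', hc', hc'1⟩ := exists_inv hkap
  obtain ⟨c0, hc0⟩ : ∃ c0 : ℤ_[p], c0 = L.sl R.u0 (R.z b) (R.z b) * c' := ⟨_, rfl⟩
  have hc0k : c0 * L.kap R.u0 (R.z b) = L.sl R.u0 (R.z b) (R.z b) := by
    rw [hc0, mul_assoc, hc', mul_one]
  have hc01 : ‖c0‖ = 1 := by rw [hc0, norm_mul, hsl, hc'1, mul_one]
  have hTc : ‖L.dF R.u0 (L.xi R.u0 (R.z b)) (R.z c)‖ = 1 := R.hT c b hbc.symm (by
    rcases hmj with h1 | h1
    · exact Or.inr h1
    · exact Or.inl h1)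
  obtain ⟨θ, hθ⟩ : ∃ θ : ℝ, θ = ‖L.dF R.u0 (L.xi R.u0 (R.z b)) (R.z i)‖ := ⟨_, rfl⟩
  have hθex : θ = (p : ℝ) ^ (-(ex R i b : ℕ) : ℤ) := by
    unfold ex
    split_ifs with h1
    · rw [hθ, h1.1, h1.2]
      exact R.hs
    · rw [hθ, R.hT i b hi (by
        by_contra h2
        push Not at h2
        exact h1 h2)]
      simp
  have hθr : r < θ := by
    rw [hθex]
    unfold ex
    split_ifs with h1
    · exact hpm1
    · simpa using hr1
  have hib1 : ‖R.z i - R.z b‖ = 1 := R.hz i b hi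
  have hcb1 : ‖R.z c - R.z b‖ = 1 := R.hz c b hbc.symm
  have hic : R.z i = R.z c ∧ θ = 1 ∨ ‖R.z c - R.z i‖ = 1 := by
    rcases eq_or_ne i c with h1 | h1
    · refine Or.inl ⟨by rw [h1], ?_⟩
      rw [hθ, h1, hTc]
    · exact Or.inr (R.hz c i h1.symm)
  -- the zeros
  have hroot : ∀ v, ‖v - R.z c‖ ≤ r → ∃ z, ‖z - R.z b‖ ≤ r ∧ L.F (xx L x z) v = 0 := by
    intro v hv
    refine exists_root (θ := r) hr0.le hr0.le hr1 (R.z b) (fun z => L.F (xx L x z) v)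
      (-(c0 * L.dF R.u0 (L.xi R.u0 (R.z b)) (R.z c))) ?_ ?_ ?_
    · rw [norm_neg, norm_mul, hc01, hTc, mul_one]
    · intro z hz
      exact F_small L (by rw [hr]; exact R.hA0) (by rw [hr]; exact R.hB0) (by rw [hr]; exact R.hC0)
        (xx_near L hr0.le hr1 hkap hpsi hball hz) v
    · intro z w hz hw
      exact H_sub L hr1 hkap hpsi hball har hlip hc0k hv hz hw
  choose! Z hZ1 hZ2 using hroot
  have hmem' : ∀ z, ‖z - R.z b‖ ≤ r → M.Mem' N (xx L x z) z := fun z hz =>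
    M.inv2 N (x z) z (tt L x z) (by rw [← hr]; exact hball z hz) (hmem z hz) (kap_one L hr1 hkap hball hz)
      (tt_mul L hr1 hkap hball hz)
  have hnew : ∀ v, ‖v - R.z c‖ ≤ r → ‖tt L x (Z v)‖ ≤ a ∧ ‖L.A (xx L x (Z v))‖ = a * θ := by
    intro v hv
    obtain ⟨s, hs, hfac⟩ := hrt (Z v) (hZ1 v hv)
    exact lead_new L hr1 hkap hpsi hball ha0 hTc hθ.symm hθr hib1 hcb1 hic (hZ1 v hv) hv hs
      (hlead _ (hZ1 v hv)) hfac (hZ2 v hv) (M.on' _ _ _ (hmem' _ (hZ1 v hv)))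
  have hvz : ∀ v z, ‖v - R.z c‖ ≤ r → ‖z - R.z b‖ ≤ r → ‖v - z‖ = 1 := by
    intro v z hv hz
    rw [← hcb1]
    refine norm_eq_of_sub_le (e := r) ?_ (by rw [hcb1]; exact hr1)
    have h4 : v - z - (R.z c - R.z b) = (v - R.z c) - (z - R.z b) := by ring
    rw [h4]
    exact sub_le hv hz
  have hne : ∀ v z, ‖v - R.z c‖ ≤ r → ‖z - R.z b‖ ≤ r → v ≠ z := by
    intro v z hv hz h4
    have h5 := hvz v z hv hz
    rw [h4, sub_self, norm_zero] at h5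
    exact zero_ne_one h5
  have hfac : ∀ v, ‖v - R.z c‖ ≤ r → ∀ w, L.F (xx L x (Z v)) w = L.A (xx L x (Z v)) * (w - v) * (w - Z v) :=
    fun v hv => F_factor L (hZ2 v hv) (M.on' _ _ _ (hmem' _ (hZ1 v hv))) (hne v _ hv (hZ1 v hv))
  have haθ : a * θ = (p : ℝ) ^ (-(k + ex R i b : ℕ) : ℤ) := by
    rw [ha, hθex, ← zpow_add₀ hp0.ne']
    congr 1
    push_cast
    ring
  have hslope : ‖-(c0 * L.dF R.u0 (L.xi R.u0 (R.z b)) (R.z c))‖ = 1 := by
    rw [norm_neg, norm_mul, hc01, hTc, mul_one]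
  refine ⟨fun v => xx L x (Z v), ?_, ?_⟩
  · refine ⟨hbc, ?_, ?_, ?_, ?_, ?_, ?_⟩
    · have := h.hk
      omega
    · intro v hv
      rw [← hr] at hv ⊢
      exact xx_near L hr0.le hr1 hkap hpsi hball (hZ1 v hv)
    · intro v hv
      rw [← hr] at hv
      refine M.inv1 N _ (Z v) v ?_ (hmem' _ (hZ1 v hv)) ?_ ?_
      · rw [← hr]
        exact xx_near L hr0.le hr1 hkap hpsi hball (hZ1 v hv)
      · rw [← norm_pos_iff, (hnew v hv).2]
        exact mul_pos ha0 (hr0.trans hθr)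
      · intro w
        rw [hfac v hv w]
        ring
    · intro v hv
      rw [← hr] at hv
      rw [(hnew v hv).2, haθ]
    · intro v w hv hw
      rw [← hr] at hv hw
      rw [← haθ]
      refine (xx_sub L hr1 hkap hpsi hball har hlip hc0k (hZ1 v hv) (hZ1 w hw)).trans (le_of_eq ?_)
      have h1 := H_sub L hr1 hkap hpsi hball har hlip hc0k hv (hZ1 v hv) (hZ1 w hw)
      rw [hZ2 v hv, zero_sub, hfac w hw v] at h1
      have h2 : ‖-(c0 * L.dF R.u0 (L.xi R.u0 (R.z b)) (R.z c)) * (Z v - Z w)‖ = ‖Z v - Z w‖ := by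
        rw [norm_mul, hslope, one_mul]
      have h3 : ‖-(L.A (xx L x (Z w)) * (v - w) * (v - Z w))‖ = a * θ * ‖v - w‖ := by
        rw [norm_neg, norm_mul, norm_mul, (hnew w hw).2, hvz v _ hv (hZ1 w hw), mul_one]
      rcases eq_or_ne (Z v) (Z w) with h4 | h4
      · rw [h4, sub_self, mul_zero, sub_zero, norm_zero, mul_zero, h3] at h1
        rw [h4, sub_self, norm_zero]
        exact le_antisymm (mul_nonneg (mul_pos ha0 (hr0.trans hθr)).le (norm_nonneg _)) h1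
      · have h5 : 0 < ‖Z v - Z w‖ := norm_pos_iff.2 (sub_ne_zero.2 h4)
        rw [← h3, ← h2]
        symm
        refine norm_eq_of_sub_le h1 ?_
        rw [h2]
        exact mul_lt_of_lt_one_left h5 hr1
    · intro v hv
      rw [← hr] at hv ⊢
      exact ⟨Z v, hZ1 v hv, fun w => hfac v hv w⟩
  · intro w hw
    rw [← hr] at hw
    refine ⟨Z w, tt L x (Z w), ?_, ?_, tt_mul L hr1 hkap hball (hZ1 w hw), rfl⟩
    · rw [← hr]
      exact hZ1 w hw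
    · rw [← ha]
      exact (hnew w hw).1

end Pool.Agent.Helper69.HN
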