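import Pool.Agent.Helper69.HN.Red
import Pool.Agent.Helper3.XA.XY
import Pool.Agent.Helper55.XA.Sp
import Pool.Agent.Helper28.HN.Pts
import Pool.Agent.Helper24.HN.Final
import Pool.Agent.Helper37.XN.Pc
import Pool.Agent.Helper57.XA.Fit
import Pool.Agent.Helper64.XI.Int
import Pool.Agent.Helper94.HN.ExLoc

/-!
# Two coprime forms vanish together on finitely many curves of the chain only
-/

set_option autoImplicit false

namespace Pool.Agent.Helper69.HN

open MvPolynomial Pool.Agent.Helper28.HN Pool.Agent.Helper24.HN Filter Topology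
open Pool.Agent.Helper57.XA (Yc La)
open Pool.Agent.Helper57.XA.Fit (hder hsurj yh_eq)

/-! ## the assembly -/

section

variable {p : ℕ} [Fact p.Prime] {m : ℕ}

/-- `psi` at the limit point has no zero near `z m` except for `ζ m`. -/
theorem psi_ne {n : ℕ} {L : Loc p n} {J : Type} [DecidableEq J] {R : Ref L J} {x1 : V p n}
    {ζ : J → ℤ_[p]} {w : ℤ_[p]} (h1 : ‖x1 - R.u0‖ ≤ (p : ℝ) ^ (-2 : ℤ))
    (hw : ‖w - R.z R.m‖ ≤ (p : ℝ) ^ (-2 : ℤ)) (hζ : ‖ζ R.m - R.z R.m‖ ≤ (p : ℝ) ^ (-2 : ℤ))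
    (h0 : L.psi x1 (ζ R.m) = 0) (hne : w ≠ ζ R.m) : L.psi x1 w ≠ 0 := by
  intro h2
  have hp1 : (1 : ℝ) < p := by exact_mod_cast (Fact.out : p.Prime).one_lt
  have h3 := L.hsl x1 w (ζ R.m)
  rw [h2, h0, sub_zero] at h3
  have h4 : L.sl x1 w (ζ R.m) = 0 := (mul_eq_zero.1 h3.symm).resolve_left (sub_ne_zero.2 hne)
  have h5 := (L.hsl' x1 R.u0 w (R.z R.m) (ζ R.m) (R.z R.m)).trans (max_le h1 (max_le hw hζ))
  rw [h4, zero_sub, norm_neg, R.hsl R.m R.hym.symm] at h5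
  exact absurd h5 (not_le.2 (zpow_lt_one_of_neg₀ hp1 (by norm_num)))

theorem cp_aff (x : Fin (m + 1) → ℤ_[p]) : cp (aff x : I m → ℤ_[p]) = aff (cst x) := by
  funext i
  refine Fin.cases ?_ (fun j => ?_) i
  · simp [cp, aff]
  · simp [cp, aff, cst]

/-- A set of curve numbers is finite when its odd (even) part is. -/
theorem finite_of_half {P : ℕ → Prop} (S : Set ℕ) (h : {N | P N}.Finite)
    (hS : ∀ N ∈ S, N ≤ 1 ∨ ∃ M, P M ∧ (N = 2 * M + 1 ∨ N = 2 * M + 2 ∨ N = 2 * M + 3)) : S.Finite := by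
  refine (((Set.finite_Iic 1).union ((h.image fun M => 2 * M + 1).union
    ((h.image fun M => 2 * M + 2).union (h.image fun M => 2 * M + 3))))).subset ?_
  intro N hN
  rcases hS N hN with h1 | ⟨M, hM, h1 | h1 | h1⟩
  · exact Or.inl h1
  · exact Or.inr (Or.inl ⟨M, hM, h1.symm⟩)
  · exact Or.inr (Or.inr (Or.inl ⟨M, hM, h1.symm⟩))
  · exact Or.inr (Or.inr (Or.inr ⟨M, hM, h1.symm⟩))

end

theorem fxy {p : ℕ} [Fact p.Prime] (hp : p ≠ 2) {m : ℕ} (hm : 4 ≤ m) (c : Ix m → ℤ_[p])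
    (k : Un m → ℤ_[p]) (h : Cfg c k) (F1 F2 : MvPolynomial (I m) (PadicAlgCl p)) (e1 e2 : ℕ)
    (h1 : F1.IsHomogeneous e1) (h2 : F2.IsHomogeneous e2) (h12 : IsRelPrime F1 F2) :
    {N | aeval (fun i => ((ch (cp c) (cp (aff fun i => k (.inl i))) (cp (xh c (sy c k)))
        (cp (sy c k)) N).1 i).map (algebraMap ℚ_[p] (PadicAlgCl p))) F1 = 0 ∧
      aeval (fun i => ((ch (cp c) (cp (aff fun i => k (.inl i))) (cp (xh c (sy c k)))
        (cp (sy c k)) N).1 i).map (algebraMap ℚ_[p] (PadicAlgCl p))) F2 = 0}.Finite ∧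
    {N | aeval (fun i => ((ch (cp c) (cp (aff fun i => k (.inl i))) (cp (xh c (sy c k)))
        (cp (sy c k)) N).2 i).map (algebraMap ℚ_[p] (PadicAlgCl p))) F1 = 0 ∧
      aeval (fun i => ((ch (cp c) (cp (aff fun i => k (.inl i))) (cp (xh c (sy c k)))
        (cp (sy c k)) N).2 i).map (algebraMap ℚ_[p] (PadicAlgCl p))) F2 = 0}.Finite := by
  classical
  obtain ⟨L, hA, hB, hC, hxi, hpsi, hkap, hsl, hd⟩ := Pool.Agent.Helper94.HN.exists_loc c
  obtain ⟨R, M, hu0, hz, hy, hj, hmm, hl, hM, hM'⟩ :=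
    Pool.Agent.Helper64.XI.exists_mems hp hm c k h L hA hB hC hxi hpsi hkap hsl hd
  obtain ⟨x1, ζ, e, ρ, N0, al, hx1, hA1, hB1, hC1, hζ, hel, hej, he, hT, hρ, hal, hal0, hX, hY⟩ :=
    Pool.Agent.Helper24.HN.dyn M hp
  have hx1' : ‖x1 - fun i => k (.inl i)‖ ≤ (p : ℝ) ^ (-2 : ℤ) := by rw [← hu0]; exact hx1
  have hVm : IsUnit (Vm c k).det := by
    have := h.hP
    unfold Pp at this
    exact isUnit_of_mul_isUnit_right this
  have hsp : ⊤ ≤ Submodule.span ℚ_[p] ((lin L x1 ζ).v '' {a | a ≠ R.y}) := by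
    rw [hy]
    refine Pool.Agent.Helper55.XA.span_of_Vm c k hVm L hxi x1 ζ hx1' fun a ha => ?_
    have := (hζ a (by rw [hy]; exact ha)).1
    rw [hz] at this
    exact this
  have E : Pool.Agent.Helper3.XA.Loop.Ev (lin L x1 ζ) R.y R.j R.l R.m e ρ :=
    Pool.Agent.Helper55.XA.ev_of M x1 ζ hx1 hA1 hB1 hC1 hζ hsp hel hej he hT hρ
  have hDu := Pts.detM_u0 h.hP
  have hball : ∀ X : V p (m + 1), ‖X - x1‖ ≤ (p : ℝ) ^ (-2 : ℤ) →
      (Mx c (aff X)).det ≠ 0 := by
    intro X hXx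
    refine (Pts.detM_unit c ?_ hDu).ne_zero
    have e3 : X - (fun i => k (.inl i)) = (X - x1) + (x1 - fun i => k (.inl i)) := by abel
    rw [e3]
    exact (IsUltrametricDist.norm_add_le_max _ _).trans (max_le hXx hx1')
  refine ⟨?_, ?_⟩
  · obtain ⟨i, hi⟩ := Pool.Agent.Helper3.XA.Loop.fin_x (M := M) E N0 al hal hal0 hX
    obtain ⟨D, hD, hiD, hev⟩ := red (K := ℚ_[p]) F1 F2 e1 e2 h1 h2 h12 i
    have hfin : {N | aeval (fun i => ((ch (cp c) (cp (aff fun i => k (.inl i))) (cp (xh c (sy c k)))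
        (cp (sy c k)) (2 * N + 2)).1 i).map (algebraMap ℚ_[p] (PadicAlgCl p))) F1 = 0 ∧
      aeval (fun i => ((ch (cp c) (cp (aff fun i => k (.inl i))) (cp (xh c (sy c k)))
        (cp (sy c k)) (2 * N + 2)).1 i).map (algebraMap ℚ_[p] (PadicAlgCl p))) F2 = 0}.Finite := by
      by_contra hinf
      refine hi D hD hiD _ hinf fun N hN X u hXx hmem => ?_
      have hR := hM' N X u hmem (hball X hXx)
      refine hev (cst X) 1 one_ne_zero ?_ ?_
      · have h3 := (Pool.Agent.Helper37.XN.P.zero_at c k (2 * N + 2) F1 e1 h1 X u hR).1 hN.1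
        rw [cp_aff] at h3
        simpa only [one_mul] using h3
      · have h3 := (Pool.Agent.Helper37.XN.P.zero_at c k (2 * N + 2) F2 e2 h2 X u hR).1 hN.2
        rw [cp_aff] at h3
        simpa only [one_mul] using h3
    refine finite_of_half _ hfin fun N hN => ?_
    rcases Nat.lt_or_ge N 2 with h3 | h3
    · exact Or.inl (by omega)
    · refine Or.inr ⟨N / 2 - 1, ?_, by omega⟩
      rcases Nat.even_or_odd' N with ⟨M', hM1 | hM1⟩
      · have e4 : 2 * (N / 2 - 1) + 2 = N := by omega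
        rw [e4]
        exact hN
      · have e4 : 2 * (N / 2 - 1) + 2 = 2 * M' := by omega
        have e5 := (Pool.Agent.Helper37.XN.P.ch_same (cp c) (cp (aff fun i => k (.inl i))) (cp (xh c (sy c k)))
          (cp (sy c k)) M').1
        rw [e4, ← e5, ← hM1]
        exact hN
  · have hm0 : 0 < m := by omega
    obtain ⟨i, hi⟩ := Pool.Agent.Helper3.XA.Loop.fin_y (M := M) E N0 al hal hal0 hY hm0 (Yc c) (La c x1)
      (fun w _ X Y hXY => hder c x1 w (Pts.detM_unit c hx1' hDu) al hal hal0 X Y hXY)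
      (fun w hw => Pool.Agent.Helper55.XA.near_ne hx1 (hζ R.j R.hyj.symm).1 hw)
      (fun w hw hwζ η => by
        have hzm : R.z R.m = k (.inr 1) := by rw [hz, hmm]
        have hw' : ‖w - k (.inr 1)‖ ≤ (p : ℝ) ^ (-2 : ℤ) := by rw [← hzm]; exact hw
        refine hsurj c x1 w (Pts.detM_unit c hx1' hDu)
          (Pts.detN_unit c hx1' hw' (Pts.detN_u0 h.hP 1)).ne_zero
          (Pool.Agent.Helper3.XA.Loop.phL (lin L x1 ζ) (w : ℚ_[p])) ?_ η
        rw [Pool.Agent.Helper3.XA.Loop.phL_apply, ← hxi, lin_phi,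
          M.rel x1 w hx1 hA1 hB1 hC1]
        intro h0
        exact psi_ne hx1 hw (hζ R.m R.hym.symm).1 (hζ R.m R.hym.symm).2 hwζ
          (PadicInt.coe_eq_zero.1 h0))
    obtain ⟨D, hD, hiD, hev⟩ := red (K := ℚ_[p]) F1 F2 e1 e2 h1 h2 h12 i.succ
    have hfin : {N | aeval (fun i => ((ch (cp c) (cp (aff fun i => k (.inl i))) (cp (xh c (sy c k)))
        (cp (sy c k)) (2 * N + 1)).2 i).map (algebraMap ℚ_[p] (PadicAlgCl p))) F1 = 0 ∧
      aeval (fun i => ((ch (cp c) (cp (aff fun i => k (.inl i))) (cp (xh c (sy c k)))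
        (cp (sy c k)) (2 * N + 1)).2 i).map (algebraMap ℚ_[p] (PadicAlgCl p))) F2 = 0}.Finite := by
      by_contra hinf
      refine hi D hD hiD _ hinf fun N hN X w hw hXx hmem => ?_
      have hR := hM N X w hmem (hball X hXx)
      have hDX : (((Mx c (aff X)).det : ℤ_[p]) : ℚ_[p]) ≠ 0 := by
        intro h0
        exact hball X hXx (PadicInt.coe_eq_zero.1 h0)
      refine hev _ (((Mx c (aff X)).det : ℤ_[p]) : ℚ_[p]) hDX ?_ ?_
      · have h3 := (Pool.Agent.Helper37.XN.P.zero_at c k (2 * N + 1) F1 e1 h1 X w hR).2 hN.1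
        rw [yh_eq c X w (hball X hXx)] at h3
        exact h3
      · have h3 := (Pool.Agent.Helper37.XN.P.zero_at c k (2 * N + 1) F2 e2 h2 X w hR).2 hN.2
        rw [yh_eq c X w (hball X hXx)] at h3
        exact h3
    refine finite_of_half _ hfin fun N hN => ?_
    rcases Nat.lt_or_ge N 1 with h3 | h3
    · exact Or.inl (by omega)
    · refine Or.inr ⟨(N - 1) / 2, ?_, by omega⟩
      rcases Nat.even_or_odd' N with ⟨M', hM1 | hM1⟩
      · have e4 : 2 * ((N - 1) / 2) + 1 = 2 * (M' - 1) + 1 := by omega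
        have e6 : 2 * (M' - 1) + 2 = N := by omega
        have e5 := (Pool.Agent.Helper37.XN.P.ch_same (cp c) (cp (aff fun i => k (.inl i))) (cp (xh c (sy c k)))
          (cp (sy c k)) (M' - 1)).2
        rw [e4, ← e5, e6]
        exact hN
      · have e4 : 2 * ((N - 1) / 2) + 1 = N := by omega
        rw [e4]
        exact hN

end Pool.Agent.Helper69.HN
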