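import Pool.Agent.Helper16.CY.Elim

/-!
# Elimination of one variable from two coprime forms
-/

set_option autoImplicit false

namespace Pool.Agent.Helper69.HN

open MvPolynomial

theorem aeval_smul_X {k σ S : Type*} [CommSemiring k] [CommSemiring S] [Algebra k S] (P : MvPolynomial σ k) {e : ℕ}
    (hP : P.IsHomogeneous e) (x : σ → S) :
    aeval (fun j => Polynomial.C (x j) * Polynomial.X) P =
      (Polynomial.C (aeval x P) * Polynomial.X ^ e : Polynomial S) := by
  classical
  rw [aeval_def, eval₂_eq, aeval_def, eval₂_eq, map_sum, Finset.sum_mul]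
  refine Finset.sum_congr rfl fun m hm => ?_
  have h1 : ∑ i ∈ m.support, m i = e := by
    have := hP (mem_support_iff.1 hm)
    rw [← this, Finsupp.weight_apply, Finsupp.sum]
    exact Finset.sum_congr rfl fun i _ => by simp
  simp only [mul_pow]
  rw [Finset.prod_mul_distrib, Finset.prod_pow_eq_pow_sum, h1, map_mul, map_prod]
  simp only [Polynomial.C_pow]
  have h2 : (algebraMap k (Polynomial S)) (coeff m P) = Polynomial.C (algebraMap k S (coeff m P)) := rfl
  rw [h2]
  ring

/-- Elimination of the variable `d` from two coprime forms. -/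
theorem exists_elim_hom {k σ : Type} [Field k] [DecidableEq σ] (d : σ) {F G : MvPolynomial σ k} {e1 e2 : ℕ}
    (hF : F.IsHomogeneous e1) (hG : G.IsHomogeneous e2) (h : IsRelPrime F G) :
    ∃ (r : MvPolynomial {j : σ // j ≠ d} k) (e : ℕ), r ≠ 0 ∧ r.IsHomogeneous e ∧
      ∀ (A : Type) [CommRing A] [Algebra k A] (x : σ → A), aeval x F = 0 →
        aeval x G = 0 → aeval (fun j : {j : σ // j ≠ d} => x j) r = 0 := by
  classical
  obtain ⟨r, hr, hz⟩ := Pool.Agent.Helper16.CY.exists_elim.{0, 0, 0} d h
  obtain ⟨e, he⟩ : ∃ e, homogeneousComponent e r ≠ 0 := by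
    by_contra h1
    push Not at h1
    apply hr
    rw [← sum_homogeneousComponent r]
    exact Finset.sum_eq_zero fun i _ => h1 i
  refine ⟨homogeneousComponent e r, e, he, homogeneousComponent_isHomogeneous e r, fun A _ _ x h1 h2 => ?_⟩
  have h3 := hz (Polynomial A) (fun j => Polynomial.C (x j) * Polynomial.X) (by
    rw [aeval_smul_X F hF, h1, map_zero, zero_mul]) (by
    rw [aeval_smul_X G hG, h2, map_zero, zero_mul])
  have h4 : aeval (fun j : {j : σ // j ≠ d} => (Polynomial.C (x j) * Polynomial.X : Polynomial A)) r =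
      ∑ i ∈ Finset.range (r.totalDegree + 1),
        Polynomial.C (aeval (fun j : {j : σ // j ≠ d} => x j) (homogeneousComponent i r)) * Polynomial.X ^ i := by
    conv_lhs => rw [← sum_homogeneousComponent r]
    rw [map_sum]
    exact Finset.sum_congr rfl fun i _ => aeval_smul_X _ (homogeneousComponent_isHomogeneous i r) _
  rw [h4] at h3
  have h5 := congrArg (fun q => Polynomial.coeff q e) h3
  simp only [Polynomial.finsetSum_coeff, Polynomial.coeff_C_mul_X_pow, Polynomial.coeff_zero] at h5
  rw [Finset.sum_eq_single e] at h5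
  · rwa [if_pos rfl] at h5
  · intro i _ hi
    rw [if_neg hi.symm]
  · intro h6
    rw [if_pos rfl, homogeneousComponent_eq_zero, map_zero]
    rw [Finset.mem_range] at h6
    omega

end Pool.Agent.Helper69.HN
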