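import Mathlib

/-!
# Roots of nearly linear functions on balls of the `p`-adic integers
-/

set_option autoImplicit false

namespace Pool.Agent.Helper69.HN

variable {p : ℕ} [hp : Fact p.Prime]

theorem add_le {a b : ℤ_[p]} {e : ℝ} (ha : ‖a‖ ≤ e) (hb : ‖b‖ ≤ e) : ‖a + b‖ ≤ e :=
  (PadicInt.nonarchimedean a b).trans (max_le ha hb)

theorem sub_le {a b : ℤ_[p]} {e : ℝ} (ha : ‖a‖ ≤ e) (hb : ‖b‖ ≤ e) : ‖a - b‖ ≤ e := by
  rw [sub_eq_add_neg]
  exact add_le ha (by rwa [norm_neg])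

/-- The strongest wins. -/
theorem norm_eq_of_sub_le {a b : ℤ_[p]} {e : ℝ} (h : ‖a - b‖ ≤ e) (hb : e < ‖b‖) : ‖a‖ = ‖b‖ := by
  have h1 : ‖a - b‖ < ‖b‖ := h.trans_lt hb
  have h2 : a = (a - b) + b := by ring
  rw [h2]
  have h3 := PadicInt.norm_add_eq_max_of_ne h1.ne
  rw [h3, max_eq_right h1.le]

theorem norm_mul_le_right {a b : ℤ_[p]} {e : ℝ} (hb : ‖b‖ ≤ e) : ‖a * b‖ ≤ e := by
  rw [norm_mul]
  calc ‖a‖ * ‖b‖ ≤ 1 * ‖b‖ := mul_le_mul_of_nonneg_right (PadicInt.norm_le_one a) (norm_nonneg _)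
    _ ≤ e := by rwa [one_mul]

theorem norm_mul_le_left {a b : ℤ_[p]} {e : ℝ} (ha : ‖a‖ ≤ e) : ‖a * b‖ ≤ e := by
  rw [mul_comm]
  exact norm_mul_le_right ha

theorem exists_inv {c : ℤ_[p]} (hc : ‖c‖ = 1) : ∃ c', c' * c = 1 ∧ ‖c'‖ = 1 := by
  refine ⟨c.inv, ?_, ?_⟩
  · exact PadicInt.inv_mul hc
  · have h1 := congrArg norm (PadicInt.inv_mul hc)
    rw [norm_mul, hc, mul_one, norm_one] at h1
    exact h1

/-- A root of a nearly linear function on a ball. -/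
theorem exists_root {r θ : ℝ} (hr : 0 ≤ r) (hθ0 : 0 ≤ θ) (hθ : θ < 1) (z0 : ℤ_[p]) (H : ℤ_[p] → ℤ_[p]) (c : ℤ_[p])
    (hc : ‖c‖ = 1) (h0 : ∀ z, ‖z - z0‖ ≤ r → ‖H z‖ ≤ r)
    (h1 : ∀ z w, ‖z - z0‖ ≤ r → ‖w - z0‖ ≤ r → ‖H z - H w - c * (z - w)‖ ≤ θ * ‖z - w‖) :
    ∃ z, ‖z - z0‖ ≤ r ∧ H z = 0 := by
  obtain ⟨c', hc', hn'⟩ := exists_inv hc
  let Φ : ℤ_[p] → ℤ_[p] := fun z => z - c' * H z
  have hmaps : Set.MapsTo Φ (Metric.closedBall z0 r) (Metric.closedBall z0 r) := by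
    intro z hz
    rw [Metric.mem_closedBall, dist_eq_norm] at hz ⊢
    have h2 : Φ z - z0 = (z - z0) - c' * H z := by
      show z - c' * H z - z0 = _
      ring
    rw [h2]
    exact sub_le hz (norm_mul_le_right (h0 z hz))
  have hcontr : ContractingWith ⟨θ, hθ0⟩ (hmaps.restrict Φ _ _) := by
    refine ⟨hθ, ?_⟩
    refine LipschitzWith.of_dist_le_mul ?_
    rintro ⟨z, hz⟩ ⟨w, hw⟩
    rw [Metric.mem_closedBall, dist_eq_norm] at hz hw
    show dist (Φ z) (Φ w) ≤ θ * dist z w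
    rw [dist_eq_norm, dist_eq_norm]
    have h2 : Φ z - Φ w = - (c' * (H z - H w - c * (z - w))) := by
      show z - c' * H z - (w - c' * H w) = _
      linear_combination (w - z) * hc'
    rw [h2, norm_neg, norm_mul, hn', one_mul]
    exact h1 z w hz hw
  have hcomplete : IsComplete (Metric.closedBall z0 r) := Metric.isClosed_closedBall.isComplete
  obtain ⟨z, hz, hfix, -⟩ := hcontr.exists_fixedPoint' hcomplete hmaps
    (Metric.mem_closedBall_self hr) (edist_ne_top _ _)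
  refine ⟨z, ?_, ?_⟩
  · rw [Metric.mem_closedBall, dist_eq_norm] at hz
    exact hz
  · have h3 : z - c' * H z = z := hfix
    have h4 : c' * H z = 0 := by linear_combination -h3
    rcases mul_eq_zero.1 h4 with h5 | h5
    · rw [h5, norm_zero] at hn'
      exact absurd hn' (by norm_num)
    · exact h5

end Pool.Agent.Helper69.HN
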