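import Pool.Agent.Helper24.HN.Defs
import Pool.Agent.Helper69.HN.Root

/-!
# Estimates for the local data
-/

set_option autoImplicit false

namespace Pool.Agent.Helper69.HN

open Pool.Agent.Helper24.HN

variable {p : ℕ} [hp : Fact p.Prime] {n : ℕ}

theorem vadd_le {a b : V p n} {e : ℝ} (he : 0 ≤ e) (ha : ‖a‖ ≤ e) (hb : ‖b‖ ≤ e) : ‖a + b‖ ≤ e :=
  (pi_norm_le_iff_of_nonneg he).2 fun i => add_le ((norm_le_pi_norm a i).trans ha) ((norm_le_pi_norm b i).trans hb)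

theorem vsub_le {a b : V p n} {e : ℝ} (he : 0 ≤ e) (ha : ‖a‖ ≤ e) (hb : ‖b‖ ≤ e) : ‖a - b‖ ≤ e := by
  rw [sub_eq_add_neg]
  exact vadd_le he ha (by rwa [norm_neg])

theorem vnorm_le_one (a : V p n) : ‖a‖ ≤ 1 :=
  (pi_norm_le_iff_of_nonneg zero_le_one).2 fun _ => PadicInt.norm_le_one _

theorem vsmul_le (t : ℤ_[p]) (a : V p n) : ‖t • a‖ ≤ ‖t‖ * ‖a‖ :=
  (pi_norm_le_iff_of_nonneg (by positivity)).2 fun i => by
    rw [Pi.smul_apply, smul_eq_mul, norm_mul]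
    exact mul_le_mul_of_nonneg_left (norm_le_pi_norm a i) (norm_nonneg _)

theorem vsmul_le' (t : ℤ_[p]) (a : V p n) : ‖t • a‖ ≤ ‖t‖ :=
  (vsmul_le t a).trans (by
    calc ‖t‖ * ‖a‖ ≤ ‖t‖ * 1 := mul_le_mul_of_nonneg_left (vnorm_le_one a) (norm_nonneg _)
      _ = _ := mul_one _)

theorem norm_sum_le {ι : Type*} (s : Finset ι) (g : ι → ℤ_[p]) {e : ℝ} (he : 0 ≤ e) (h : ∀ i ∈ s, ‖g i‖ ≤ e) :
    ‖∑ i ∈ s, g i‖ ≤ e := by
  classical
  induction s using Finset.induction_on with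
  | empty => simpa using he
  | insert i s hi ih =>
    rw [Finset.sum_insert hi]
    exact add_le (h i (Finset.mem_insert_self i s)) (ih fun k hk => h k (Finset.mem_insert_of_mem hk))

theorem norm_lin_le (f : V p n →ₗ[ℤ_[p]] ℤ_[p]) (v : V p n) : ‖f v‖ ≤ ‖v‖ := by
  rw [LinearMap.pi_apply_eq_sum_univ f v]
  refine norm_sum_le _ _ (norm_nonneg _) fun i _ => ?_
  rw [smul_eq_mul]
  exact norm_mul_le_left (norm_le_pi_norm v i)

section loc

variable (L : Loc p n)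

theorem hF (x h : V p n) (z : ℤ_[p]) : ‖L.F (x + h) z - L.F x z - L.dF x h z‖ ≤ ‖h‖ ^ 2 := by
  have h1 : L.F (x + h) z - L.F x z - L.dF x h z = (L.A (x + h) - L.A x - L.dA x h) * z ^ 2 +
      (L.B (x + h) - L.B x - L.dB x h) * z + (L.C (x + h) - L.C x - L.dC x h) := by
    unfold Loc.F Loc.dF
    ring
  rw [h1]
  exact add_le (add_le (norm_mul_le_left (L.hA x h)) (norm_mul_le_left (L.hB x h))) (L.hC x h)

theorem hdF (x x' v : V p n) (z : ℤ_[p]) : ‖L.dF x v z - L.dF x' v z‖ ≤ ‖x - x'‖ * ‖v‖ := by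
  have h1 : L.dF x v z - L.dF x' v z = (L.dA (x' + (x - x')) v - L.dA x' v) * z ^ 2 +
      (L.dB (x' + (x - x')) v - L.dB x' v) * z + (L.dC (x' + (x - x')) v - L.dC x' v) := by
    rw [add_sub_cancel]
    unfold Loc.dF
    ring
  rw [h1]
  exact add_le (add_le (norm_mul_le_left (L.hdA _ _ v)) (norm_mul_le_left (L.hdB _ _ v))) (L.hdC _ _ v)

theorem dF_le (x v : V p n) (z : ℤ_[p]) : ‖L.dF x v z‖ ≤ ‖v‖ :=
  add_le (add_le (norm_mul_le_left (norm_lin_le _ v)) (norm_mul_le_left (norm_lin_le _ v))) (norm_lin_le _ v)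

theorem dF_sub (x v w : V p n) (z : ℤ_[p]) : L.dF x (v - w) z = L.dF x v z - L.dF x w z := by
  unfold Loc.dF
  rw [map_sub, map_sub, map_sub]
  ring

theorem dF_smul (x v : V p n) (t z : ℤ_[p]) : L.dF x (t • v) z = t * L.dF x v z := by
  unfold Loc.dF
  rw [map_smul, map_smul, map_smul, smul_eq_mul, smul_eq_mul, smul_eq_mul]
  ring

theorem dF_neg (x v : V p n) (z : ℤ_[p]) : L.dF x (-v) z = - L.dF x v z := by
  unfold Loc.dF
  rw [map_neg, map_neg, map_neg]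
  ring

theorem dF_z (x v : V p n) (z z' : ℤ_[p]) : ‖L.dF x v z - L.dF x v z'‖ ≤ ‖z - z'‖ := by
  have h1 : L.dF x v z - L.dF x v z' = (z - z') * (L.dA x v * (z + z') + L.dB x v) := by
    unfold Loc.dF
    ring
  rw [h1]
  exact norm_mul_le_left le_rfl

/-- The derivative in the direction of the reflection. -/
theorem Th_lip (x x' y y' : V p n) (z z' v v' : ℤ_[p]) :
    ‖L.dF x (L.xi y z) v - L.dF x' (L.xi y' z') v'‖ ≤ max (max ‖x - x'‖ (max ‖y - y'‖ ‖z - z'‖)) ‖v - v'‖ := by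
  have h1 : L.dF x (L.xi y z) v - L.dF x' (L.xi y' z') v' = (L.dF x (L.xi y z) v - L.dF x' (L.xi y z) v) +
      L.dF x' (L.xi y z - L.xi y' z') v + (L.dF x' (L.xi y' z') v - L.dF x' (L.xi y' z') v') := by
    rw [dF_sub]
    ring
  rw [h1]
  refine add_le (add_le ?_ ?_) ?_
  · refine (hdF L _ _ _ _).trans ((mul_le_of_le_one_right (norm_nonneg _) (vnorm_le_one _)).trans ?_)
    exact (le_max_left _ _).trans (le_max_left _ _)
  · exact (dF_le L _ _ _).trans ((L.hxi _ _ _ _).trans ((le_max_right _ _).trans (le_max_left _ _)))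
  · exact (dF_z L _ _ _ _).trans (le_max_right _ _)

theorem A_lip (x x' : V p n) : ‖L.A x - L.A x'‖ ≤ ‖x - x'‖ := by
  have h1 := L.hA x' (x - x')
  rw [add_sub_cancel] at h1
  have h2 : L.A x - L.A x' = (L.A x - L.A x' - L.dA x' (x - x')) + L.dA x' (x - x') := by ring
  rw [h2]
  refine add_le (h1.trans ?_) (norm_lin_le _ _)
  rw [sq]
  exact mul_le_of_le_one_right (norm_nonneg _) (vnorm_le_one _)

theorem B_lip (x x' : V p n) : ‖L.B x - L.B x'‖ ≤ ‖x - x'‖ := by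
  have h1 := L.hB x' (x - x')
  rw [add_sub_cancel] at h1
  have h2 : L.B x - L.B x' = (L.B x - L.B x' - L.dB x' (x - x')) + L.dB x' (x - x') := by ring
  rw [h2]
  refine add_le (h1.trans ?_) (norm_lin_le _ _)
  rw [sq]
  exact mul_le_of_le_one_right (norm_nonneg _) (vnorm_le_one _)

theorem C_lip (x x' : V p n) : ‖L.C x - L.C x'‖ ≤ ‖x - x'‖ := by
  have h1 := L.hC x' (x - x')
  rw [add_sub_cancel] at h1
  have h2 : L.C x - L.C x' = (L.C x - L.C x' - L.dC x' (x - x')) + L.dC x' (x - x') := by ring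
  rw [h2]
  refine add_le (h1.trans ?_) (norm_lin_le _ _)
  rw [sq]
  exact mul_le_of_le_one_right (norm_nonneg _) (vnorm_le_one _)

theorem F_small {r : ℝ} {u0 x : V p n} (hA0 : ‖L.A u0‖ ≤ r) (hB0 : ‖L.B u0‖ ≤ r) (hC0 : ‖L.C u0‖ ≤ r)
    (hx : ‖x - u0‖ ≤ r) (z : ℤ_[p]) : ‖L.F x z‖ ≤ r := by
  have h1 : L.F x z = (L.A u0 + (L.A x - L.A u0)) * z ^ 2 + (L.B u0 + (L.B x - L.B u0)) * z +
      (L.C u0 + (L.C x - L.C u0)) := by
    unfold Loc.F
    ring
  rw [h1]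
  exact add_le (add_le (norm_mul_le_left (add_le hA0 ((A_lip L _ _).trans hx)))
    (norm_mul_le_left (add_le hB0 ((B_lip L _ _).trans hx)))) (add_le hC0 ((C_lip L _ _).trans hx))

/-- A quadratic polynomial with two different roots. -/
theorem F_factor {x : V p n} {z w : ℤ_[p]} (hz : L.F x z = 0) (hw : L.F x w = 0) (hne : z ≠ w) (v : ℤ_[p]) :
    L.F x v = L.A x * (v - z) * (v - w) := by
  have h1 : (z - w) * (L.A x * (z + w) + L.B x) = 0 := by
    have h2 : (z - w) * (L.A x * (z + w) + L.B x) = L.F x z - L.F x w := by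
      unfold Loc.F
      ring
    rw [h2, hz, hw, sub_zero]
  have h3 : L.A x * (z + w) + L.B x = 0 := (mul_eq_zero.1 h1).resolve_left (sub_ne_zero.2 hne)
  unfold Loc.F at hz ⊢
  linear_combination hz + (v - z) * h3

end loc

end Pool.Agent.Helper69.HN
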