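import Pool.Agent.Helper69.HN.Elim
import Pool.Agent.Helper50.XA.Desc

/-!
# From two coprime forms to a polynomial over the base field, free of one variable
-/

set_option autoImplicit false

namespace Pool.Agent.Helper69.HN

open MvPolynomial Pool.Agent.Helper28.HN

/-- Two coprime forms over the big field: a polynomial over the small field, free of the variable `i`,
which vanishes at `x` whenever both forms vanish at a multiple of `(1, x)`. -/
theorem red {K k : Type} [Field K] [Field k] [Algebra K k] {m : ℕ} (F1 F2 : MvPolynomial (I m) k)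
    (e1 e2 : ℕ) (h1 : F1.IsHomogeneous e1) (h2 : F2.IsHomogeneous e2) (h12 : IsRelPrime F1 F2)
    (i : Fin (m + 1)) : ∃ D : MvPolynomial (Fin (m + 1)) K, D ≠ 0 ∧ i ∉ D.vars ∧
      ∀ (x : Fin (m + 1) → K) (t : K), t ≠ 0 →
        aeval (fun a => algebraMap K k (t * aff x a)) F1 = 0 →
        aeval (fun a => algebraMap K k (t * aff x a)) F2 = 0 → eval x D = 0 := by
  classical
  obtain ⟨r, e, hr, hre, hz⟩ := exists_elim_hom i.succ h1 h2 h12
  have h3 : rename Subtype.val r ≠ 0 := by
    intro h4
    apply hr
    refine rename_injective _ Subtype.val_injective ?_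
    rw [h4, map_zero]
  obtain ⟨D1, hD1, hv1, hh1, hz1⟩ := Pool.Agent.Helper50.XA.desc' (K := K) (rename Subtype.val r) h3
  have hi : i.succ ∉ D1.vars := by
    intro h4
    have h5 := vars_rename Subtype.val r (hv1 h4)
    rw [Finset.mem_image] at h5
    obtain ⟨j, -, hj⟩ := h5
    exact j.2 hj
  obtain ⟨D, hD, hiD, hev⟩ := Pool.Agent.Helper50.XA.aff_part D1 e hD1
    (hh1 e (IsHomogeneous.rename_isHomogeneous hre)) i hi
  refine ⟨D, hD, hiD, fun x t ht hF1 hF2 => ?_⟩
  have h6 := hz k (fun a => algebraMap K k (t * aff x a)) hF1 hF2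
  have h7 : eval (fun a => t * aff x a) D1 = 0 := by
    refine hz1 _ ?_
    rw [aeval_rename]
    exact h6
  rw [hev] at h7
  exact (mul_eq_zero.1 h7).resolve_left (pow_ne_zero _ ht)

end Pool.Agent.Helper69.HN
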